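import Pool.Agent.H56.PD.Div3

/-!
# Baker's constant: the exponent `3 / 2 + ε` for all the coefficients near the values of an arbitrary polynomial in several
# variables at almost all vectors of integers with restricted digits

A quadruple `(a, b, c, d)` of integers is admissible (`Admissible`) if `a`, `b`, `c` are nonzero and not all of the same
sign, `a + b + c - d` is even, and each of `gcd(a, b, c)`, `gcd(d, a, b)`, `gcd(d, a, c)`, `gcd(d, b, c)` is one.
`SmallSolution μ a b c d`: `a p + b q + c r = d` has a solution in primes with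
`max(p, q, r) ≤ 3 |d| + max(3, |a|, |b|, |c|) ^ μ`. Baker's constant is the infimum of the `μ` for which this holds
for all admissible quadruples; it is at most `45`, and at most `4` on the generalized Riemann hypothesis.

`Good μ T n`: ALL admissible equations with `|c| = n`, `|a|, |b| ≤ (log n) ^ T` and an arbitrary `d` have such a
solution. Here the coefficients are arbitrary integers `n` with `|n - (c + q F(x))| ≤ log ^ A N` and
`gcd(n, q) ≤ log ^ A N`, where `q ≤ N ^ (1 - δ)` is ANY modulus, `F` is ANY polynomial of positive degree with integer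
coefficients in any number of variables, and `x` is a vector of integers whose digits in base `b` are restricted to
arbitrary sets with at least TWO elements (for instance `F = x ^ 2` and the decimal digits `0` and `1`: then there are only
about `N ^ (0.151)` values). For all but a proportion `1 / log ^ U N` of the `x`, ALL these `n` are good.

Input from the library: the theorem with one large coefficient (`Pool.Agent.Y883.T6.one6`: the exponent `3 / 2 + ε` for all
`c` without large divisors in one very sparse set). New: the values of polynomials in several variables at integers with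
restricted digits are not concentrated in residue classes, with a POWER saving, to all moduli up to any power of the size
(`Pool.Agent.H56.PD.mv_conc_shift`, by induction on the degree and on the number of variables, without any energies or
exponential sums), and they are rarely small (thin large spectrum, `Pool.Agent.H56.PD.law_vec`).
-/

set_option autoImplicit false

namespace Pool.Agent.Results.MP_3923f3_nt.CoefficientsNearPolynomials

open Finset

/-- Admissible quadruples: `a`, `b`, `c` are nonzero and not all of the same sign, `a + b + c - d` is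
even, and each of `gcd(a, b, c)`, `gcd(d, a, b)`, `gcd(d, a, c)`, `gcd(d, b, c)` equals `1`. -/
structure Admissible (a b c d : ℤ) : Prop where
  a_ne : a ≠ 0
  b_ne : b ≠ 0
  c_ne : c ≠ 0
  not_pos : ¬ (0 < a ∧ 0 < b ∧ 0 < c)
  not_neg : ¬ (a < 0 ∧ b < 0 ∧ c < 0)
  even : Even (a + b + c - d)
  gcd_abc : Int.gcd (Int.gcd a b) c = 1
  gcd_dab : Int.gcd (Int.gcd d a) b = 1
  gcd_dac : Int.gcd (Int.gcd d a) c = 1
  gcd_dbc : Int.gcd (Int.gcd d b) c = 1

/-- The equation `a p + b q + c r = d` has a solution in primes with `max(p, q, r) ≤ 3 |d| + m ^ μ`,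
`m = max(3, |a|, |b|, |c|)`. -/
def SmallSolution (μ : ℝ) (a b c d : ℤ) : Prop :=
  ∃ p q r : ℕ, p.Prime ∧ q.Prime ∧ r.Prime ∧ a * p + b * q + c * r = d ∧
    ((max p (max q r) : ℕ) : ℝ) ≤ 3 * |(d : ℝ)| + ((max 3 (max |a| (max |b| |c|)) : ℤ) : ℝ) ^ μ

/-- All admissible equations `a p + b q + c r = d` with `|c| = n`, `|a|, |b| ≤ (log n) ^ T` and an arbitrary `d` have a
solution in primes with `max(p, q, r) ≤ 3 |d| + max(3, |a|, |b|, |c|) ^ μ`. -/
def Good (μ : ℝ) (T n : ℕ) : Prop :=
  ∀ a b c d : ℤ, Admissible a b c d → c.natAbs = n →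
    |(a : ℝ)| ≤ Real.log |(c : ℝ)| ^ T → |(b : ℝ)| ≤ Real.log |(c : ℝ)| ^ T → SmallSolution μ a b c d

/-- There is an integer `n` with `|n - v| ≤ log ^ A N` and `gcd(n, q) ≤ log ^ A N` such that `|n|` is not good. -/
def Bad (μ : ℝ) (T A N q : ℕ) (v : ℤ) : Prop :=
  ∃ n : ℤ, |(n : ℝ) - v| ≤ Real.log N ^ A ∧ (Int.gcd n q : ℝ) ≤ Real.log N ^ A ∧ ¬ Good μ T n.natAbs

/-- the integers `0 ≤ x < b ^ k` whose digit at `b ^ j` in base `b` is in `A j`, for all `j < k` -/
def withDigits (b k : ℕ) (A : ℕ → Finset ℕ) : Finset ℕ := (range (b ^ k)).filter (fun x => ∀ j < k, x / b ^ j % b ∈ A j)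

lemma adm {a b c d : ℤ} (h : Pool.Agent.Y883.T5.Admissible a b c d) : Admissible a b c d := by
  obtain ⟨h1, h2, h3, h4, h5, h6, h7, h8, h9, h10⟩ := h
  exact ⟨h1, h2, h3, h4, h5, h6, h7, h8, h9, h10⟩

lemma good_of (μ : ℝ) (T n : ℕ) (h : Good μ T n) : Pool.Agent.Q289.BK.GoodC μ T n :=
  fun a b c d h1 h2 h3 h4 => h a b c d (adm h1) h2 h3 h4

lemma adm' {a b c d : ℤ} (h : Admissible a b c d) : Pool.Agent.Y883.T5.Admissible a b c d := by
  obtain ⟨h1, h2, h3, h4, h5, h6, h7, h8, h9, h10⟩ := h
  exact ⟨h1, h2, h3, h4, h5, h6, h7, h8, h9, h10⟩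

lemma of_good (μ : ℝ) (T n : ℕ) (h : Pool.Agent.Q289.BK.GoodC μ T n) : Good μ T n :=
  fun a b c d h1 h2 h3 h4 => h a b c d (adm' h1) h2 h3 h4

open Classical in
/-- Let `b ≥ 2`, let `F` be a polynomial with integer coefficients in `n` variables, of total degree `d ≥ 1`, let
`ε, δ > 0` and let `T`, `A`, `B`, `U`, `W` be natural numbers. For all sufficiently large `N`, EVERY modulus
`1 ≤ q ≤ N ^ (1 - δ)`, every number `k` of digits with `q b ^ (d k) ≤ B N` and `N ≤ q b ^ (d k) log ^ W N`, ALL sets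
`Dg i j ⊆ {0, ..., b - 1}` of allowed digits with at least two elements and every integer `c` with `|c| ≤ B N`: for all the
vectors `x = (x 1, ..., x n)` of integers `x i` with `k` digits in base `b` such that the digit of `x i` at `b ^ j` is in
`Dg i j` for all `i` and `j < k`, with the exception of a proportion of at most `1 / log ^ U N` of them, ALL the integers
`m` with `|m - (c + q F(x))| ≤ log ^ A N` and `gcd(m, q) ≤ log ^ A N` satisfy: all admissible equations
`a₁ p₁ + a₂ p₂ + a₃ p₃ = e` with `|a₃| = |m|`, `|a₁|, |a₂| ≤ (log |m|) ^ T` and an arbitrary `e` have a solution in primes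
with `max(p₁, p₂, p₃) ≤ 3 |e| + max(3, |a₁|, |a₂|, |a₃|) ^ (3 / 2 + ε)`. -/
theorem result (b n : ℕ) (hb : 2 ≤ b) (F : MvPolynomial (Fin n) ℤ) (hF : 1 ≤ F.totalDegree) (ε : ℝ) (hε : 0 < ε)
    (δ : ℝ) (hδ : 0 < δ) (T A B U W : ℕ) :
    ∃ N₀ : ℕ, ∀ N : ℕ, N₀ ≤ N → ∀ q : ℕ, 1 ≤ q → (q : ℝ) ≤ (N : ℝ) ^ (1 - δ) →
      ∀ k : ℕ, q * b ^ (F.totalDegree * k) ≤ B * N →
      (N : ℝ) ≤ q * (b : ℝ) ^ (F.totalDegree * k) * Real.log N ^ W →
      ∀ Dg : Fin n → ℕ → Finset ℕ, (∀ i, ∀ j < k, Dg i j ⊆ range b ∧ 2 ≤ (Dg i j).card) →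
      ∀ c : ℤ, |c| ≤ (B : ℤ) * N →
      (((Fintype.piFinset fun i => withDigits b k (Dg i)).filter
        (fun x => Bad (3 / 2 + ε) T A N q (c + q * MvPolynomial.eval (fun j => (x j : ℤ)) F))).card : ℝ) ≤
        ((Fintype.piFinset fun i => withDigits b k (Dg i)).card : ℝ) / Real.log N ^ U := by
  obtain ⟨N₀, h0⟩ := Pool.Agent.H56.PD.coef_good b n hb F hF ε hε δ hδ T A B U W
  refine ⟨N₀, fun N hN q hq hqN k hk1 hk2 Dg hDg c hc => ?_⟩
  have h1 := h0 N hN q hq hqN k hk1 hk2 Dg hDg c hc (Fintype.piFinset fun i => withDigits b k (Dg i)) rfl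
  refine le_trans ?_ h1
  apply Nat.cast_le.2
  apply card_le_card
  intro x hx
  rw [mem_filter] at hx ⊢
  obtain ⟨hx1, m, hm1, hm2, hm3⟩ := hx
  exact ⟨hx1, m, hm1, hm2, fun h => hm3 (of_good _ _ _ h)⟩

end Pool.Agent.Results.MP_3923f3_nt.CoefficientsNearPolynomials
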