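import Pool.Agent.H56.AC.Coef
import Pool.Agent.H56.PD.Div1

/-!
# Baker's constant: the exponent `1 + ε` for all equations with one large coefficient near the values of an arbitrary
# polynomial in several variables at almost all vectors of integers with restricted digits

A quadruple `(a₁, a₂, a₃, e)` of integers is admissible (`Admissible`) if `a₁`, `a₂`, `a₃` are nonzero and not all of the
same sign, `a₁ + a₂ + a₃ - e` is even, and each of `gcd(a₁, a₂, a₃)`, `gcd(e, a₁, a₂)`, `gcd(e, a₁, a₃)`, `gcd(e, a₂, a₃)`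
is one. Baker's constant is the infimum of the `μ` such that `a₁ p + a₂ q + a₃ r = e` has a solution in primes with
`max(p, q, r) ≤ 3 |e| + max(3, |a₁|, |a₂|, |a₃|) ^ μ` for all admissible quadruples; it is at most `45`, at most `4` on the
generalized Riemann hypothesis, and conjectured to be `1`.

`x` is a vector of integers with `k` digits in base `b`; the digit of `x i` at `b ^ j` is in a set with at least TWO elements,
otherwise arbitrary (for instance: the decimal digits `0` and `1`). `F` is ANY nonconstant polynomial with integer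
coefficients in these variables, `c` is any integer with `|c| ≤ k ^ A b ^ (k deg F)`. For all but a proportion `1 / k ^ U` of
the vectors `x`, ALL integers `m` with `|m - (c + F(x))| ≤ k ^ A` are good: ALL admissible equations with `|a₃| = |m|`,
`|a₁|, |a₂| ≤ (log |m|) ^ T` and `|e| ≤ |m| ^ K` have a solution in primes with `max(p, q, r) ≤ 3 |e| + |m| ^ (1 + ε)`
(`K` is arbitrary). The exponent `1 + ε` is the conjectured one, and best possible here.

New (`Pool.Agent.H56.AC`): (1) ANTI-CONCENTRATION MODULO ONE: if a real polynomial `P` in `n` variables is at a distance of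
at most `η` from an integer at a proportion `1 / T` of the vectors of integers with restricted digits, then there is one
`q ≤ T ^ C` such that ALL coefficients of `q P` are extremely close to integers: `‖q c_m‖ ≤ T ^ C η / b ^ (k |m|)` (`sv`,
`mv`; the constant depends on `b`, `n` and the degree only). (2) Hence the large values of the bilinear exponential sums
`∑ e(θ F(x) y + g(x) + h(y))`, `g` and `h` ARBITRARY functions, come from good rational approximations to `θ` (`bil_big`), the
real additive energy of the families `θ F(x) y + g(x) + h(y)` is minimal (`pol_energy`), and the theorem of the starting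
files on ALL binary linear forms in primes with small coefficients holds for almost all members of dense subfamilies.
We use it with `g(x) = ` the worst `e` for the worst `m` near `c + F(x)`. The case of `F(x) = x` in one variable is the theorem
`MissingDigitCoefficients` in the library, with another method, which is special to digits.
-/

set_option autoImplicit false

namespace Pool.Agent.Results.MP_3923f3_nt.ExponentOneNearPolynomials

open Finset

/-- Admissible quadruples: `a`, `b`, `c` are nonzero and not all of the same sign, `a + b + c - d` is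
even, and each of `gcd(a, b, c)`, `gcd(d, a, b)`, `gcd(d, a, c)`, `gcd(d, b, c)` equals `1`. -/
structure Admissible (a b c d : ℤ) : Prop where
  a_ne : a ≠ 0
  b_ne : b ≠ 0
  c_ne : c ≠ 0
  not_pos : ¬ (0 < a ∧ 0 < b ∧ 0 < c)
  not_neg : ¬ (a < 0 ∧ b < 0 ∧ c < 0)
  even : Even (a + b + c - d)
  gcd_abc : Int.gcd (Int.gcd a b) c = 1
  gcd_dab : Int.gcd (Int.gcd d a) b = 1
  gcd_dac : Int.gcd (Int.gcd d a) c = 1
  gcd_dbc : Int.gcd (Int.gcd d b) c = 1

/-- ALL admissible equations `a₁ p + a₂ q + a₃ r = e` with `|a₃| = |m|`, `|a₁|, |a₂| ≤ (log |m|) ^ T` and `|e| ≤ |m| ^ K` have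
a solution in primes with `max(p, q, r) ≤ 3 |e| + |m| ^ (1 + ε)`. -/
def Good (ε : ℝ) (T K : ℕ) (m : ℤ) : Prop := ∀ a₁ a₂ a₃ e : ℤ, Admissible a₁ a₂ a₃ e → |a₃| = |m| →
  |(a₁ : ℝ)| ≤ Real.log |(m : ℝ)| ^ T → |(a₂ : ℝ)| ≤ Real.log |(m : ℝ)| ^ T → |e| ≤ |m| ^ K →
  ∃ p q r : ℕ, p.Prime ∧ q.Prime ∧ r.Prime ∧ a₁ * p + a₂ * q + a₃ * r = e ∧
    ((max p (max q r) : ℕ) : ℝ) ≤ 3 * |(e : ℝ)| + |(m : ℝ)| ^ (1 + ε)

/-- the integers `0 ≤ x < b ^ k` whose digit at `b ^ j` in base `b` is in `A j`, for all `j < k` -/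
def withDigits (b k : ℕ) (A : ℕ → Finset ℕ) : Finset ℕ := (range (b ^ k)).filter (fun x => ∀ j < k, x / b ^ j % b ∈ A j)

lemma adm' {a b c d : ℤ} (h : Admissible a b c d) : Pool.Agent.Y883.T5.Admissible a b c d := by
  obtain ⟨h1, h2, h3, h4, h5, h6, h7, h8, h9, h10⟩ := h
  exact ⟨h1, h2, h3, h4, h5, h6, h7, h8, h9, h10⟩

open Classical in
/-- Let `b ≥ 2`, let `F` be a nonconstant polynomial with integer coefficients in `n` variables, `ε > 0`, and `A`, `K`, `T`,
`U` natural numbers. For all sufficiently large `k`, ALL sets `Dg i j ⊆ {0, ..., b - 1}` of allowed digits with at least two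
elements and all integers `c` with `|c| ≤ k ^ A b ^ (k deg F)`: for all the vectors `x = (x 1, ..., x n)` of integers `x i`
with `k` digits in base `b` such that the digit of `x i` at `b ^ j` is in `Dg i j` for all `i` and `j < k`, with the exception
of a proportion of at most `1 / k ^ U` of them, ALL integers `m` with `|m - (c + F(x))| ≤ k ^ A` are good. -/
theorem result (b n : ℕ) (hb : 2 ≤ b) (F : MvPolynomial (Fin n) ℤ) (hF : 1 ≤ F.totalDegree) (ε : ℝ) (hε : 0 < ε)
    (A K T U : ℕ) : ∃ k₀ : ℕ, ∀ k : ℕ, k₀ ≤ k →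
      ∀ Dg : Fin n → ℕ → Finset ℕ, (∀ i, ∀ j < k, Dg i j ⊆ range b ∧ 2 ≤ (Dg i j).card) →
      ∀ c : ℤ, |c| ≤ (k : ℤ) ^ A * (b : ℤ) ^ (k * F.totalDegree) →
      (((Fintype.piFinset fun i => withDigits b k (Dg i)).filter (fun x => ∃ m : ℤ,
        |m - (c + MvPolynomial.eval (fun i => (x i : ℤ)) F)| ≤ (k : ℤ) ^ A ∧ ¬ Good ε T K m)).card : ℝ) ≤
        ((Fintype.piFinset fun i => withDigits b k (Dg i)).card : ℝ) / (k : ℝ) ^ U := by
  obtain ⟨k₀, h0⟩ := Pool.Agent.H56.AC.coefP hb F hF ε hε A T K U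
  refine ⟨k₀, fun k hk Dg hDg c hc => ?_⟩
  have h1 := h0 k hk c (fun i => Pool.Agent.H56.PD.fillD b k (Dg i))
    (fun i => Pool.Agent.H56.PD.fill_DS b k hb (Dg i) (hDg i)) (by
      have h2 : ((|c| : ℤ) : ℝ) ≤ (((k : ℤ) ^ A * (b : ℤ) ^ (k * F.totalDegree) : ℤ) : ℝ) := by exact_mod_cast hc
      push_cast at h2
      rw [← pow_mul, mul_comm ((b : ℝ) ^ (k * F.totalDegree))]
      exact h2)
  have h2 : (Fintype.piFinset fun i => withDigits b k (Dg i)) =
      Fintype.piFinset (fun i => Pool.Agent.X31.CT.KK b (Pool.Agent.H56.PD.fillD b k (Dg i)) k) := by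
    congr 1
    funext i
    exact Pool.Agent.H56.PD.wd_eq b k hb (Dg i) (hDg i)
  rw [h2]
  refine le_trans ?_ h1
  apply Nat.cast_le.2
  apply card_le_card
  intro x hx
  rw [mem_filter] at hx ⊢
  obtain ⟨hx1, m, hx2, hx3⟩ := hx
  refine ⟨hx1, m, ?_, fun hG => hx3 ?_⟩
  · have h3 : ((|m - (c + MvPolynomial.eval (fun i => (x i : ℤ)) F)| : ℤ) : ℝ) ≤ (((k : ℤ) ^ A : ℤ) : ℝ) := by
      exact_mod_cast hx2
    rw [Int.cast_abs] at h3
    push_cast at h3 ⊢
    exact h3
  · intro a₁ a₂ a₃ e hadm ham h1 h2 he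
    have hcr : |(a₃ : ℝ)| = |(m : ℝ)| := by
      rw [← Int.cast_abs, ham, Int.cast_abs]
    obtain ⟨p, q, r, g1, g2, g3, g4, g5⟩ := hG a₁ a₂ a₃ e (adm' hadm) (Int.natAbs_eq_natAbs_iff.2 (abs_eq_abs.1 ham))
      (by rw [hcr]; exact h1) (by rw [hcr]; exact h2) (by rw [ham]; exact he)
    exact ⟨p, q, r, g1, g2, g3, g4, by rw [hcr] at g5; exact g5⟩

end Pool.Agent.Results.MP_3923f3_nt.ExponentOneNearPolynomials
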