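import Pool.Agent.H7.BG.Asm

/-!
# MP_3923f3_nt: Baker's constant, all equations with small common divisors, exponent three

A quadruple `(a, b, c, d)` of integers is admissible (`Admissible`) if `a`, `b`, `c` are nonzero and
not all of the same sign, `a + b + c - d` is even, and each of `gcd(a, b, c)`, `gcd(d, a, b)`,
`gcd(d, a, c)`, `gcd(d, b, c)` is one. The constant of Baker is the infimum of the exponents `μ` for
which every admissible equation `a p + b q + c r = d` has a solution in primes with

  `max(p, q, r) ≤ 3 |d| + m ^ μ`, `m = max(3, |a|, |b|, |c|)`   (`SmallSolution μ a b c d`).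

It is known that it is at most `45`, and at most `4` on the generalized Riemann hypothesis.

**Theorem.** Let `ε > 0` and `T` be given. **All** admissible equations for which `m` is sufficiently large and the
greatest common divisors of two of the coefficients and of `d` and `a b c` are at most `(log m) ^ T` have a solution
in primes with

  `max(p, q, r) ≤ 3 |d| + m ^ (3 + ε)`,

which is below the exponent `4` of the generalized Riemann hypothesis. More precisely, for `θ > 3 / 2` and
`Δ = max(|a b|, |b c|, |c a|)` sufficiently large, and greatest common divisors at most `(log Δ) ^ T`, there is a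
solution with

  `max(|a| p, |b| q, |c| r) ≤ 3 |d| + min(|a|, |b|, |c|) Δ ^ θ`.

No set of coefficients or right sides is excluded besides the conditions on the greatest common divisors.

The proof. The unknown `p ≤ P` is considered modulo `k b c` with small `k`, and so on; these moduli may be as large
as `P ^ (2/3 - ρ)`, beyond the square root of `P`. On the major arcs the sums over the primes are treated by the
identity of Vaughan; where the mean value theorem over the characters of the one modulus does not suffice, it is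
replaced by the large value estimate of Halasz and Montgomery with the inequality of Polya and Vinogradov
(`Pool.Agent.H7.BK.pv`, `hm`, `bilMaj3`). On the minor arcs such an estimate is not available for the primes, but it
is for the majorant `gr` of the primes, the numbers without prime factors up to `P ^ (3/10)` (the level `7/10` of
the library). So a vector sieve is used (`Pool.Agent.H7.BK.vec`, `Pool.Agent.H7.BG.low3`),

  `lp₁ lp₂ lp₃ ≥ lp₁ gr₂ lp₃ + gr₁ lp₂ lp₃ - gr₁ gr₂ lp₃`,

whose main term is positive since the majorant is larger than the primes by a factor less than two, and in every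
product on the right side one function is small on the minor arcs. On the major arcs at most `(log m) ^ C` bad
characters remain; for the difference of the functions and of their sieve models these have conductors larger than
any power of the logarithm (Siegel and Walfisz), and three of them contribute the generalised Jacobi sum over the
solutions of `a x + b y + c z ≡ d` modulo `k a b c`, which is small if `gcd(d, k a b c)` is small
(`Pool.Agent.H7.BG.tJacG`; common divisors of the coefficients cost a factor at most their size). So no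
information on the zeros of the `L`-functions is needed.
-/

set_option autoImplicit false

namespace Pool.Agent.Results.MP_3923f3_nt.SmallCommonDivisors

open Pool.Agent.Y883.T5 (Admissible)
open Pool.Agent.Y883.T6 (SmallSolution)

/-- **Prime solutions of `a p + b q + c r = d` for coefficients with small common divisors.** -/
theorem result :
    (∀ θ : ℝ, 3 / 2 < θ → ∀ T : ℕ, ∃ Δ₀ : ℕ, ∀ a b c d : ℤ, Admissible a b c d →
      ∀ Δ : ℕ, Δ = max (a * b).natAbs (max (b * c).natAbs (c * a).natAbs) → Δ₀ ≤ Δ →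
      (Int.gcd a b : ℝ) ≤ Real.log Δ ^ T → (Int.gcd b c : ℝ) ≤ Real.log Δ ^ T →
      (Int.gcd c a : ℝ) ≤ Real.log Δ ^ T → (Int.gcd d (a * b * c) : ℝ) ≤ Real.log Δ ^ T →
      ∃ p q r : ℕ, p.Prime ∧ q.Prime ∧ r.Prime ∧ a * p + b * q + c * r = d ∧
        ((max (a.natAbs * p) (max (b.natAbs * q) (c.natAbs * r)) : ℕ) : ℝ) ≤
          3 * |(d : ℝ)| + (min a.natAbs (min b.natAbs c.natAbs) : ℕ) * (Δ : ℝ) ^ θ) ∧
    (∀ ε : ℝ, 0 < ε → ∀ T : ℕ, ∃ m₀ : ℕ, ∀ a b c d : ℤ, Admissible a b c d →
      ∀ m : ℤ, m = max 3 (max |a| (max |b| |c|)) → (m₀ : ℤ) ≤ m →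
      (Int.gcd a b : ℝ) ≤ Real.log m ^ T → (Int.gcd b c : ℝ) ≤ Real.log m ^ T →
      (Int.gcd c a : ℝ) ≤ Real.log m ^ T → (Int.gcd d (a * b * c) : ℝ) ≤ Real.log m ^ T →
      SmallSolution (3 + ε) a b c d) := by
  have hmain := Pool.Agent.H7.BG.main_all Pool.Agent.H7.BG.low_all
  refine ⟨hmain, fun ε hε T => ?_⟩
  obtain ⟨Δ₀, h0⟩ := hmain (3 / 2 + ε / 2) (by linarith) T
  refine ⟨Δ₀ + 4, fun a b c d hadm m hm hm0 h1 h2 h3 hg => ?_⟩
  obtain ⟨Δ, hΔ⟩ : ∃ Δ : ℕ, Δ = max (a * b).natAbs (max (b * c).natAbs (c * a).natAbs) := ⟨_, rfl⟩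
  have e1 : (a * b).natAbs = a.natAbs * b.natAbs := Int.natAbs_mul _ _
  have e2 : (b * c).natAbs = b.natAbs * c.natAbs := Int.natAbs_mul _ _
  have e3 : (c * a).natAbs = c.natAbs * a.natAbs := Int.natAbs_mul _ _
  obtain ⟨u, hu⟩ : ∃ u : ℕ, u = a.natAbs := ⟨_, rfl⟩
  obtain ⟨v, hv⟩ : ∃ v : ℕ, v = b.natAbs := ⟨_, rfl⟩
  obtain ⟨w, hw⟩ : ∃ w : ℕ, w = c.natAbs := ⟨_, rfl⟩
  have hu1 : 1 ≤ u := by rw [hu]; exact Int.natAbs_pos.2 hadm.a_ne
  have hv1 : 1 ≤ v := by rw [hv]; exact Int.natAbs_pos.2 hadm.b_ne
  have hw1 : 1 ≤ w := by rw [hw]; exact Int.natAbs_pos.2 hadm.c_ne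
  have hau : |a| = (u : ℤ) := by rw [hu]; exact Int.abs_eq_natAbs a
  have hbv : |b| = (v : ℤ) := by rw [hv]; exact Int.abs_eq_natAbs b
  have hcw : |c| = (w : ℤ) := by rw [hw]; exact Int.abs_eq_natAbs c
  have hΔ' : Δ = max (u * v) (max (v * w) (w * u)) := by rw [hΔ, e1, e2, e3, hu, hv, hw]
  have huv : u ≤ u * v := Nat.le_mul_of_pos_right _ hv1
  have hvw : v ≤ v * w := Nat.le_mul_of_pos_right _ hw1
  have hwu : w ≤ w * u := Nat.le_mul_of_pos_right _ hu1
  obtain ⟨M, hM⟩ : ∃ M : ℕ, M = max 3 (max u (max v w)) := ⟨_, rfl⟩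
  have hmM : m = (M : ℤ) := by
    rw [hm, hau, hbv, hcw, hM]
    push_cast
    rfl
  have hM4 : Δ₀ + 4 ≤ M := by
    rw [hmM] at hm0
    exact_mod_cast hm0
  have hMΔ : M ≤ Δ := by omega
  have hM0 : (0 : ℝ) < M := by exact_mod_cast (by omega : 0 < M)
  have hM1 : (1 : ℝ) ≤ M := by exact_mod_cast (by omega : 1 ≤ M)
  have hmr : (m : ℝ) = M := by rw [hmM]; norm_num
  have hlm : Real.log m ^ T ≤ Real.log Δ ^ T := by
    rw [hmr]
    apply pow_le_pow_left₀ (Real.log_nonneg hM1)
    exact Real.log_le_log hM0 (by exact_mod_cast hMΔ)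
  have hsol := h0 a b c d hadm Δ hΔ (by omega) (h1.trans hlm) (h2.trans hlm) (h3.trans hlm) (hg.trans hlm)
  have hsol' : Pool.Agent.Y883.T6.Sol6 (3 / 2 + ε / 2) Δ a b c d := hsol
  apply hsol'.small hadm.a_ne hadm.b_ne hadm.c_ne
  rw [← hm, hmr]
  have hΔM : Δ ≤ M * M := by
    have a1 : u ≤ M := by omega
    have a2 : v ≤ M := by omega
    have a3 : w ≤ M := by omega
    rw [hΔ']
    exact max_le (Nat.mul_le_mul a1 a2) (max_le (Nat.mul_le_mul a2 a3) (Nat.mul_le_mul a3 a1))
  have hΔMr : (Δ : ℝ) ≤ (M : ℝ) ^ (2 : ℝ) := by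
    have : (Δ : ℝ) ≤ M * M := by exact_mod_cast hΔM
    rw [Real.rpow_two, sq]
    exact this
  calc (Δ : ℝ) ^ (3 / 2 + ε / 2) ≤ ((M : ℝ) ^ (2 : ℝ)) ^ (3 / 2 + ε / 2) :=
        Real.rpow_le_rpow (Nat.cast_nonneg _) hΔMr (by linarith)
    _ = (M : ℝ) ^ (3 + ε) := by
        rw [← Real.rpow_mul hM0.le]
        congr 1
        ring

end Pool.Agent.Results.MP_3923f3_nt.SmallCommonDivisors
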