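import Pool.Agent.H96.BK.C

/-!
# Baker's constant: the exponent `3 / 2 + ε` for all coefficients near almost all members of arbitrary thin families
# inside residue classes, in particular near perturbed products

A quadruple `(a, b, c, d)` of integers is admissible (`Admissible`) if `a`, `b`, `c` are nonzero and not all of the same
sign, `a + b + c - d` is even, and each of `gcd(a, b, c)`, `gcd(d, a, b)`, `gcd(d, a, c)`, `gcd(d, b, c)` is one.
`SmallSolution μ a b c d`: `a p + b q + c r = d` has a solution in primes with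
`max(p, q, r) ≤ 3 |d| + max(3, |a|, |b|, |c|) ^ μ`. Baker's constant is the infimum of the `μ` for which this holds
for all admissible quadruples; it is at most `45`, and at most `4` on the generalized Riemann hypothesis.

`Good μ T n`: ALL admissible equations with `|c| = n`, `|a|, |b| ≤ (log n) ^ T` and an arbitrary `d` have such a
solution. Here the coefficients are arbitrary integers `n` with `|n - (b + q t z)| ≤ log ^ A N` and
`gcd(n, q) ≤ log ^ A N`, where `q ≤ N ^ (1 - δ)` is ANY modulus and `t z` is an ARBITRARY family of integers whose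
additive energy of some order is minimal, at the scale `N / q`, up to a power of the logarithm. For instance the `t z` may
be values of polynomials at arbitrary dense sets (`b + q p ^ 2`, primes `p`) or products of members of `k ≥ 2` such
families, changed by arbitrary functions each of which does not depend on one of the members.

Input from the library: the theorem with one large coefficient (`Pool.Agent.Y883.T6.one6`: the exponent `3 / 2 + ε` for all
`c` without large divisors in one very sparse set) and tools for families of small energy (`Pool.Agent.Q289.BK`). New: the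
divisors of the members of thin families in residue classes (`Pool.Agent.H96.BK`), the energies of the perturbed
products (`Pool.Agent.H96.PR`, by an inequality of the type of Gowers, Cauchy and Schwarz).
-/

set_option autoImplicit false

namespace Pool.Agent.Results.MP_3923f3_nt.ThinCoefficientsInClasses

open Finset Polynomial

/-- Admissible quadruples: `a`, `b`, `c` are nonzero and not all of the same sign, `a + b + c - d` is
even, and each of `gcd(a, b, c)`, `gcd(d, a, b)`, `gcd(d, a, c)`, `gcd(d, b, c)` equals `1`. -/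
structure Admissible (a b c d : ℤ) : Prop where
  a_ne : a ≠ 0
  b_ne : b ≠ 0
  c_ne : c ≠ 0
  not_pos : ¬ (0 < a ∧ 0 < b ∧ 0 < c)
  not_neg : ¬ (a < 0 ∧ b < 0 ∧ c < 0)
  even : Even (a + b + c - d)
  gcd_abc : Int.gcd (Int.gcd a b) c = 1
  gcd_dab : Int.gcd (Int.gcd d a) b = 1
  gcd_dac : Int.gcd (Int.gcd d a) c = 1
  gcd_dbc : Int.gcd (Int.gcd d b) c = 1

/-- The equation `a p + b q + c r = d` has a solution in primes with `max(p, q, r) ≤ 3 |d| + m ^ μ`,
`m = max(3, |a|, |b|, |c|)`. -/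
def SmallSolution (μ : ℝ) (a b c d : ℤ) : Prop :=
  ∃ p q r : ℕ, p.Prime ∧ q.Prime ∧ r.Prime ∧ a * p + b * q + c * r = d ∧
    ((max p (max q r) : ℕ) : ℝ) ≤ 3 * |(d : ℝ)| + ((max 3 (max |a| (max |b| |c|)) : ℤ) : ℝ) ^ μ

/-- All admissible equations `a p + b q + c r = d` with `|c| = n`, `|a|, |b| ≤ (log n) ^ T` and an arbitrary `d` have a
solution in primes with `max(p, q, r) ≤ 3 |d| + max(3, |a|, |b|, |c|) ^ μ`. -/
def Good (μ : ℝ) (T n : ℕ) : Prop :=
  ∀ a b c d : ℤ, Admissible a b c d → c.natAbs = n →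
    |(a : ℝ)| ≤ Real.log |(c : ℝ)| ^ T → |(b : ℝ)| ≤ Real.log |(c : ℝ)| ^ T → SmallSolution μ a b c d

/-- There is an integer `n` with `|n - v| ≤ log ^ A N` and `gcd(n, q) ≤ log ^ A N` such that `|n|` is not good. -/
def Bad (μ : ℝ) (T A N q : ℕ) (v : ℤ) : Prop :=
  ∃ n : ℤ, |(n : ℝ) - v| ≤ Real.log N ^ A ∧ (Int.gcd n q : ℝ) ≤ Real.log N ^ A ∧ ¬ Good μ T n.natAbs

/-- The additive energy of order `h` of a finite family of integers: the number of the solutions of
`v (i 1) + ... + v (i h) = v (j 1) + ... + v (j h)`. -/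
noncomputable def energy (h : ℕ) {ι : Type} [Fintype ι] (v : ι → ℤ) : ℕ :=
  Nat.card {q : (Fin h → ι) × (Fin h → ι) // ∑ j, v (q.1 j) = ∑ j, v (q.2 j)}

/-- `f j z` does not depend on the coordinate `z j`, for all `j`; otherwise these functions are arbitrary. -/
def Free {k : ℕ} {Z : Fin k → Type} (f : Fin k → (∀ j, Z j) → ℤ) : Prop :=
  ∀ (j : Fin k) (z z' : ∀ j, Z j), (∀ t, t ≠ j → z t = z' t) → f j z = f j z'

lemma adm {a b c d : ℤ} (h : Pool.Agent.Y883.T5.Admissible a b c d) : Admissible a b c d := by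
  obtain ⟨h1, h2, h3, h4, h5, h6, h7, h8, h9, h10⟩ := h
  exact ⟨h1, h2, h3, h4, h5, h6, h7, h8, h9, h10⟩

lemma adm' {a b c d : ℤ} (h : Admissible a b c d) : Pool.Agent.Y883.T5.Admissible a b c d := by
  obtain ⟨h1, h2, h3, h4, h5, h6, h7, h8, h9, h10⟩ := h
  exact ⟨h1, h2, h3, h4, h5, h6, h7, h8, h9, h10⟩

lemma good_iff (μ : ℝ) (T n : ℕ) : Good μ T n ↔ Pool.Agent.Q289.BK.GoodC μ T n :=
  ⟨fun h a b c d h1 h2 h3 h4 => h a b c d (adm h1) h2 h3 h4, fun h a b c d h1 h2 h3 h4 => h a b c d (adm' h1) h2 h3 h4⟩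

open Classical in
/-- arbitrary families -/
lemma general (ε : ℝ) (hε : 0 < ε) (δ : ℝ) (hδ : 0 < δ) (T A B C U h : ℕ) : ∃ N₀ : ℕ, ∀ N : ℕ, N₀ ≤ N → ∀ q : ℕ, 1 ≤ q →
    (q : ℝ) ≤ (N : ℝ) ^ (1 - δ) → ∀ (c : ℤ) (Z : Type) [Fintype Z] (t : Z → ℤ), (∀ z, |c + q * t z| ≤ B * N) →
    (energy h t : ℝ) * N ≤ Real.log N ^ C * q * (Fintype.card Z : ℝ) ^ (2 * h) →
    (((univ : Finset Z).filter (fun z => Bad (3 / 2 + ε) T A N q (c + q * t z))).card : ℝ) ≤
      Fintype.card Z / Real.log N ^ U := by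
  obtain ⟨δ', hδ'⟩ : ∃ δ' : ℝ, δ' = min δ 1 := ⟨_, rfl⟩
  have hδ0 : 0 < δ' := by rw [hδ']; exact lt_min hδ one_pos
  have hδ1 : δ' ≤ 1 := by rw [hδ']; exact min_le_right _ _
  have hδ2 : δ' ≤ δ := by rw [hδ']; exact min_le_left _ _
  obtain ⟨N₁, h1⟩ := Pool.Agent.H96.BK.class_win ε hε T (h + 1) A B C U (by omega) δ' hδ0 hδ1
  obtain ⟨N₂, h2⟩ := Pool.Agent.H373R2.T7.ev_L' 1
  refine ⟨N₁ + N₂ + 1, fun N hN q hq hqN c Z _ t hv hE => ?_⟩
  have hL1 := h2 N (by omega)
  have hN1 : (1 : ℝ) ≤ N := by exact_mod_cast (by omega : 1 ≤ N)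
  have h3 := h1 N (by omega) q hq (hqN.trans (Real.rpow_le_rpow_of_exponent_le hN1 (by linarith))) c Z t hv
    (Pool.Agent.H96.BK.lift_order t h (h + 1) C C N q (by omega) le_rfl hL1 hE)
  refine le_trans ?_ h3
  rw [Nat.cast_le]
  apply card_le_card
  intro z hz
  rw [mem_filter] at hz ⊢
  obtain ⟨-, n, hn1, hn2, hn3⟩ := hz
  exact ⟨mem_univ _, n, hn1, hn2, fun hc => hn3 ((good_iff _ _ _).2 hc)⟩

open Classical in
/-- Let `ε, δ > 0` and let `T`, `A`, `B`, `C`, `U` be natural numbers. For all sufficiently large `N`, for EVERY modulus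
`1 ≤ q ≤ N ^ (1 - δ)` and for every integer `c` the following three statements hold.

(1) Let `t z`, `z ∈ Z`, be any finite family of integers with `|c + q t z| ≤ B N` whose additive energy of order `h` is at
most `log ^ C N` times `|Z| ^ (2 h) / (N / q)`, the smallest possible value up to the power of the logarithm. For all `z`
with at most `|Z| / log ^ U N` exceptions, ALL integers `n` with `|n - (c + q t z)| ≤ log ^ A N` and
`gcd(n, q) ≤ log ^ A N` satisfy: all admissible equations `a₁ p₁ + a₂ p₂ + a₃ p₃ = d` with `|a₃| = |n|`,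
`|a₁|, |a₂| ≤ (log |n|) ^ T` and an arbitrary `d` have a solution in primes with
`max(p₁, p₂, p₃) ≤ 3 |d| + max(3, |a₁|, |a₂|, |a₃|) ^ (3 / 2 + ε)`.

(2) This holds for the `t = P(n)`, `n ∈ D`, where `P` is a fixed nonconstant polynomial with integer coefficients and
`D ⊆ {1, ..., Y}` is any set with at least `Y / log ^ C N` elements (for instance the primes), where
`Y ^ deg P ≥ (N / q) / log ^ C N`.

(3) This holds for the `t = a 1 (z 1) ⋯ a k (z k) + f 1 (z) + ... + f k (z)`, where `k ≥ 2`, the `a j` are any finite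
families of integers with `|a j| ≤ M j`, `N ^ δ ≤ M j ≤ N ^ B`, `M 1 ⋯ M k ≥ (N / q) / log ^ C N`, whose energies of
order `h` are at most `log ^ C N` times `|Z j| ^ (2 h) / M j`, and the `f j` are ARBITRARY integer valued functions such
that `f j (z)` does not depend on `z j`. -/
theorem result (ε : ℝ) (hε : 0 < ε) (δ : ℝ) (hδ : 0 < δ) (T A B C U : ℕ) :
    (∀ h : ℕ, ∃ N₀ : ℕ, ∀ N : ℕ, N₀ ≤ N → ∀ q : ℕ, 1 ≤ q → (q : ℝ) ≤ (N : ℝ) ^ (1 - δ) →
      ∀ (c : ℤ) (Z : Type) [Fintype Z] (t : Z → ℤ), (∀ z, |c + q * t z| ≤ B * N) →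
      (energy h t : ℝ) * N ≤ Real.log N ^ C * q * (Fintype.card Z : ℝ) ^ (2 * h) →
      (((univ : Finset Z).filter (fun z => Bad (3 / 2 + ε) T A N q (c + q * t z))).card : ℝ) ≤
        Fintype.card Z / Real.log N ^ U) ∧
    (∀ P : ℤ[X], 1 ≤ P.natDegree →
      ∃ N₀ : ℕ, ∀ N : ℕ, N₀ ≤ N → ∀ q : ℕ, 1 ≤ q → (q : ℝ) ≤ (N : ℝ) ^ (1 - δ) →
      ∀ (c : ℤ) (Y : ℕ) (D : Finset ℕ), D ⊆ Icc 1 Y → (Y : ℝ) ≤ Real.log N ^ C * D.card →
      (N : ℝ) ≤ Real.log N ^ C * q * (Y : ℝ) ^ P.natDegree → (∀ n ∈ D, |c + q * P.eval (n : ℤ)| ≤ B * N) →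
      ((D.filter (fun n : ℕ => Bad (3 / 2 + ε) T A N q (c + q * P.eval (n : ℤ)))).card : ℝ) ≤ D.card / Real.log N ^ U) ∧
    (∀ k h : ℕ, 2 ≤ k →
      ∃ N₀ : ℕ, ∀ N : ℕ, N₀ ≤ N → ∀ q : ℕ, 1 ≤ q → (q : ℝ) ≤ (N : ℝ) ^ (1 - δ) →
      ∀ (c : ℤ) (Z : Fin k → Type) [∀ j, Fintype (Z j)] (a : ∀ j, Z j → ℤ) (M : Fin k → ℕ)
        (f : Fin k → (∀ j, Z j) → ℤ),
      (∀ j z, |a j z| ≤ M j) → (∀ j, (N : ℝ) ^ δ ≤ M j ∧ M j ≤ N ^ B) → (N : ℝ) ≤ Real.log N ^ C * q * ∏ j, (M j : ℝ) →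
      (∀ j, (energy h (a j) : ℝ) * M j ≤ Real.log N ^ C * (Fintype.card (Z j) : ℝ) ^ (2 * h)) → Free f →
      (∀ z, |c + q * (∏ j, a j (z j) + ∑ j, f j z)| ≤ B * N) →
      (((univ : Finset (∀ j, Z j)).filter
        (fun z => Bad (3 / 2 + ε) T A N q (c + q * (∏ j, a j (z j) + ∑ j, f j z)))).card : ℝ) ≤
        Fintype.card (∀ j, Z j) / Real.log N ^ U) := by
  refine ⟨fun h => general ε hε δ hδ T A B C U h, fun P hP => ?_, fun k h hk => ?_⟩
  · obtain ⟨H, C', N₁, h1⟩ := Pool.Agent.H96.LM.energy_poly_scale C P hP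
    obtain ⟨N₂, h2⟩ := general ε hε δ hδ T A B C' U H
    refine ⟨N₁ + N₂, fun N hN q hq hqN c Y D hD hYD hY hv => ?_⟩
    have h3 := h1 N (by omega) q Y D hD hYD hY
    have h4 := h2 N (by omega) q hq hqN c {n // n ∈ D} (fun n => P.eval ((n : ℕ) : ℤ)) (fun n => hv n n.2) h3
    rw [Fintype.card_coe] at h4
    refine le_trans ?_ h4
    rw [Nat.cast_le]
    apply card_le_card_of_surjOn (fun n => ((n : {n // n ∈ D}) : ℕ))
    intro n hn
    rw [mem_coe, mem_filter] at hn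
    refine ⟨⟨n, hn.1⟩, ?_, rfl⟩
    rw [mem_coe, mem_filter]
    exact ⟨mem_univ _, hn.2⟩
  · obtain ⟨k, rfl⟩ : ∃ k', k = k' + 2 := ⟨k - 2, by omega⟩
    obtain ⟨H, C', N₁, hH, h1⟩ := Pool.Agent.H96.LM.energy_scale k C B h δ hδ
    obtain ⟨N₂, h2⟩ := general ε hε δ hδ T A B C' U H
    refine ⟨N₁ + N₂, fun N hN q hq hqN c Z _ a M f ha hM hNM hE hf hv => ?_⟩
    exact h2 N (by omega) q hq hqN c (∀ j, Z j) (fun z => ∏ j, a j (z j) + ∑ j, f j z) hv
      (h1 N (by omega) q Z a M f hM ha hE hNM hf)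

end Pool.Agent.Results.MP_3923f3_nt.ThinCoefficientsInClasses
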